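import Pool.Agent.helper35.BQ.Spec

/-! Project bq (MP_baa4d7_al), row ZRO: the numbers `kC` vanish unless `A[B] ≤ U ≤ A_B`. -/

set_option autoImplicit false

open Pool.Agent.helper58.DC Pool.Agent.DI Pool.Agent.DR Pool.Agent.NQ

namespace Pool.Agent.BQ

theorem ZRO (hKEY : KEY_stmt) (hIM : IM_stmt) : ZRO_stmt := by
  intro G E A _ _ _ _ _ X p _ M hM hp χ hχ d U hU
  have hk : ∀ C : Finset (Subgroup G), IsRadical p C → kC X p M χ d U C = 0 := by
    intro C hC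
    unfold kC
    refine Nat.card_eq_zero.2 (Or.inl ⟨?_⟩)
    rintro ⟨ψ, h1, -, h3, h4⟩
    apply hU
    constructor
    · rw [← h4]
      exact hKEY G E A X p M hM hp χ hχ C hC ψ h1 h3
    · rw [← h4]
      rintro _ ⟨e, he, rfl⟩
      have he2 : funMap (X.act e) ψ = ψ := he.2
      have h5 := ((hIM G M ψ χ χ).2.2.2 (X.act e)).2 h3
      rw [he2] at h5
      have h6 := (hIM G M ψ (funMap (X.act e) χ) χ).2.1 h5
      exact ⟨e, rfl, (hIM G M (funMap (X.act e) χ) ψ χ).2.2.1 h6 h3⟩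
  refine ⟨hk, ?_⟩
  unfold altSum
  have h0 : ∀ c : Quot (chainRel (G := G) p),
      (-1 : ℤ) ^ (c.out.1.card - 1) * (kC X p M χ d U c.out.1 : ℤ) = 0 := by
    intro c
    rw [hk c.out.1 c.out.2, Nat.cast_zero, mul_zero]
  rw [finsum_congr h0, finsum_zero]

end Pool.Agent.BQ
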